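import Pool.Agent.R598.FM.Dya

set_option autoImplicit false

namespace Pool.Agent.Results.MP_42b9e0_lc.DyadicWithoutWeakDedekind

open Pool.Agent.R598.FM

/-- There is a transitive model of ZFA in which every infinite set is dyadically filterbase
infinite, but some infinite set is not weakly Dedekind-infinite. -/
theorem result : ∃ (A : Type) (N : Set (U A)), IsZFA N ∧ IDFBI N ∧ ¬ IWDI N := Dya.main

end Pool.Agent.Results.MP_42b9e0_lc.DyadicWithoutWeakDedekind
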